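import Pool.Agent.H92.OD.Targets

/-!
# BLF: finitely many orders for given data (board ode_modules)
-/

set_option autoImplicit false

namespace Pool.Agent.H59.OD

open MvPolynomial Filter Pool.Agent.H92.OD

theorem poly_ne {k : Type} [Field k] (M : Finset (Fin 2 →₀ ℕ)) (l : (Fin 2 →₀ ℕ) → k)
    (hM : M.Nonempty) (hl : ∀ m ∈ M, l m ≠ 0) (hd : ∀ m ∈ M, ∀ m' ∈ M, d2 m = d2 m') :
    (∑ m ∈ M, Polynomial.monomial (m 1) (l m)) ≠ 0 := by
  classical
  obtain ⟨m₀, hm₀⟩ := hM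
  intro h
  have h1 := congrArg (fun p : Polynomial k => p.coeff (m₀ 1)) h
  simp only [Polynomial.finsetSum_coeff, Polynomial.coeff_monomial, Polynomial.coeff_zero] at h1
  rw [Finset.sum_eq_single m₀] at h1
  · rw [if_pos rfl] at h1
    exact hl m₀ hm₀ h1
  · intro m hm hne
    rw [if_neg]
    intro he
    apply hne
    have h2 := hd m hm m₀ hm₀
    unfold d2 at h2
    ext i
    fin_cases i
    · show m 0 = m₀ 0
      omega
    · exact he
  · intro h2
    exact absurd hm₀ h2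

theorem fin_roots {k : Type} [Field k] [CharZero k] (p : Polynomial k) (hp : p ≠ 0) :
    {ρ : ℚ | p.eval (ρ : k) = 0}.Finite := by
  have h1 : {x : k | p.IsRoot x}.Finite := Polynomial.finite_setOfPred_isRoot hp
  exact h1.preimage (Rat.cast_injective.injOn)

theorem pf_BLF (h : T_BAL) : T_BLF := by
  classical
  intro k _ _ s w l hs hl
  set S1 : Set ℚ := (fun x : (Fin 2 →₀ ℕ) × (Fin 2 →₀ ℕ) =>
    (w x.1 - w x.2) / ((d2 x.2 : ℚ) - d2 x.1)) '' ((s ×ˢ s : Finset _) : Set _) with hS1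
  set S2 : Set ℚ := ⋃ M ∈ (s.powerset : Set (Finset (Fin 2 →₀ ℕ))),
    {ρ : ℚ | M.Nonempty ∧ (∀ m ∈ M, ∀ m' ∈ M, d2 m = d2 m') ∧
      (∑ m ∈ M, Polynomial.monomial (m 1) (l m)).eval (ρ : k) = 0} with hS2
  have hf1 : S1.Finite := (Finset.finite_toSet _).image _
  have hf2 : S2.Finite := by
    apply Set.Finite.biUnion (Finset.finite_toSet _)
    intro M hM
    rw [Finset.mem_coe, Finset.mem_powerset] at hM
    by_cases hc : M.Nonempty ∧ ∀ m ∈ M, ∀ m' ∈ M, d2 m = d2 m'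
    · exact (fin_roots _ (poly_ne M l hc.1 (fun m hm => hl m (hM hm)) hc.2)).subset
        (fun ρ hρ => hρ.2.2)
    · apply Set.Finite.subset Set.finite_empty
      intro ρ hρ
      exact absurd ⟨hρ.1, hρ.2.1⟩ hc
  refine ⟨(hf1.union hf2).toFinset, ?_⟩
  intro A t ρ hA hc ht hev
  rw [Set.Finite.mem_toFinset]
  have hA0 : A ≠ 0 := by
    rintro rfl
    rw [support_zero] at hA
    rw [← hA] at hs
    exact Finset.not_nonempty_empty hs
  obtain ⟨M, hM, hMs, ⟨ν, hν, _⟩, hsum⟩ := h k A t ρ w ht (fun m hm => (hc m (hA ▸ hm)).1) hA0 hev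
  rw [hA] at hMs
  by_cases hd : ∀ m ∈ M, ∀ m' ∈ M, d2 m = d2 m'
  · right
    rw [hS2, Set.mem_iUnion₂]
    refine ⟨M, by rw [Finset.mem_coe, Finset.mem_powerset]; exact hMs, hM, hd, ?_⟩
    obtain ⟨m₀, hm₀⟩ := hM
    have h1 : ∑ m ∈ M, cf (coeff m A) (w m) * (ρ : k) ^ m 1 * cf t ρ ^ d2 m =
        (∑ m ∈ M, l m * (ρ : k) ^ m 1) * cf t ρ ^ d2 m₀ := by
      rw [Finset.sum_mul]
      apply Finset.sum_congr rfl
      intro m hm
      rw [(hc m (hMs hm)).2, hd m hm m₀ hm₀]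
    rw [h1] at hsum
    have h2 : cf t ρ ^ d2 m₀ ≠ 0 := pow_ne_zero _ ht.1
    have h3 := (mul_eq_zero.1 hsum).resolve_right h2
    rw [Polynomial.eval_finsetSum]
    rw [← h3]
    apply Finset.sum_congr rfl
    intro m _
    rw [Polynomial.eval_monomial]
  · left
    push Not at hd
    obtain ⟨m, hm, m', hm', hne⟩ := hd
    have h1 := (hν m hm).trans (hν m' hm').symm
    refine ⟨(m, m'), ?_, ?_⟩
    · rw [Finset.mem_coe, Finset.mem_product]
      exact ⟨hMs hm, hMs hm'⟩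
    · have h2 : ((d2 m' : ℚ) - d2 m) ≠ 0 := by
        rw [sub_ne_zero]
        exact_mod_cast hne.symm
      show (w m - w m') / ((d2 m' : ℚ) - d2 m) = ρ
      rw [div_eq_iff h2]
      linear_combination h1

end Pool.Agent.H59.OD
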