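import Pool.Agent.H92.OD.Targets

/-!
# FNA: the derivation argument (board ode_modules)
-/

set_option autoImplicit false

namespace Pool.Agent.H59.OD

open MvPolynomial Filter Pool.Agent.H92.OD

theorem cf_fsm {R : Type} [CommRing R] (Z : Finset ℚ) (c : ℚ → R) (r : ℚ) :
    cf (fsm Z c) r = if r ∈ Z then c r else 0 := by
  classical
  unfold fsm
  rw [cf_sum]
  simp only [cf_sg]
  rw [Finset.sum_ite_eq]

theorem pf_FNA (h : T_DCO) : T_FNA := by
  classical
  intro k F _ _ _ _ _ δ Q Z c a b s σ N hZ hg1 hg2 ha hb hQ hab hb0 hs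
  set y := fsm Z c with hy
  set y' := fsm Z (fun r => δ (c r)) with hy'
  have hyy : ∀ r, cf y' r = δ (cf y r) := by
    intro r
    rw [hy, hy', cf_fsm, cf_fsm]
    split_ifs
    · rfl
    · rw [map_zero]
  by_cases hall : ∀ r ∈ Z, δ (c r) = 0
  · exfalso
    have h0 : y' = 0 := by
      apply hs_ext
      intro r
      rw [hy', cf_fsm, cf_zero]
      split_ifs with hr
      · exact hall r hr
      · rfl
    have hDF : DF (0 : HS F) = 0 := by
      apply hs_ext
      intro r
      rw [cf_DF, cf_zero, smul_zero]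
    have h1 := h k F δ (pderiv 1 Q) y y' hyy σ
    have h2 := h k F δ (pderiv 2 Q) y y' hyy σ
    rw [h0, hDF, mul_zero, mul_zero, add_zero, cf_zero] at h1 h2
    rw [ha] at h1
    rw [hb] at h2
    have h3 := congrArg δ hab
    rw [map_add, Derivation.leibniz, map_zero, h1, h2, hs, smul_zero, zero_add, zero_add,
      smul_eq_mul, mul_one] at h3
    exact hb0 h3
  · push Not at hall
    have hne : (Z.filter (fun r => δ (c r) ≠ 0)).Nonempty := by
      obtain ⟨r, hr, hr'⟩ := hall
      exact ⟨r, Finset.mem_filter.2 ⟨hr, hr'⟩⟩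
    set r₁ := (Z.filter (fun r => δ (c r) ≠ 0)).min' hne with hr₁
    have hmem := Finset.min'_mem _ hne
    rw [← hr₁, Finset.mem_filter] at hmem
    obtain ⟨hrZ, hr0⟩ := hmem
    have hmin : ∀ r ∈ Z, r < r₁ → δ (c r) = 0 := by
      intro r hr hlt
      by_contra hne'
      have hmr : r ∈ Z.filter (fun r => δ (c r) ≠ 0) := Finset.mem_filter.2 ⟨hr, hne'⟩
      exact absurd hlt (not_lt.2 (Finset.min'_le _ r hmr))
    have hge : geO r₁ y' := by
      intro r hr
      rw [hy', cf_fsm]
      split_ifs with h1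
      · exact hmin r h1 hr
      · rfl
    have hcf : cf y' r₁ = δ (c r₁) := by
      rw [hy', cf_fsm, if_pos hrZ]
    have h1 := h k F δ Q y y' hyy (σ + r₁)
    have hle := hZ r₁ hrZ
    rw [hQ (σ + r₁) (by linarith), map_zero, cf_add, (cf_mul_low hg1 hge).2,
      (cf_mul_low hg2 (geO_DF hge)).2, ha, hb, cf_DF, hcf, Rat.smul_def] at h1
    have h2 : (a + r₁ * b) * δ (c r₁) = 0 := by
      rw [h1]
      ring
    have h3 := (mul_eq_zero.1 h2).resolve_right hr0
    have h4 : (s - r₁) * b = 0 := by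
      linear_combination hab - h3
    have h5 := (mul_eq_zero.1 h4).resolve_right hb0
    exact ⟨r₁, hrZ, sub_eq_zero.1 h5⟩

end Pool.Agent.H59.OD
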